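import Pool.Agent.W25.UB.Stm
import Pool.Agent.W347.PL.TTC
import Pool.Agent.H442R2.BX.Rb

/-! Subtask UB-R2 of project UB (helper25), by helper935: the product of two rough divisor sums
beyond the level one half, from the Kloosterman correlation theorem TTC. -/

set_option autoImplicit false

namespace Pool.Agent.W935.UB.R2

open Finset
open Pool.Agent.W25.UB
open Pool.Agent.H442R2
open Pool.Agent.H442R2.KF
open Pool.Agent.H442R2.BX.TaskEX
open Pool.Agent.W23.PL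
open Pool.Agent.W347.PL

/-- only the class of `b` modulo `q` matters -/
theorem SEb_shift (N : ℕ) (b a a' : ℤ) (q d d' : ℕ) :
    SEb N b a a' q d d' = SEb N (b % q) a a' q d d' := by
  unfold SEb
  refine tsum_congr fun n => ?_
  have h : ((q : ℤ) ∣ n - b) ↔ ((q : ℤ) ∣ n - b % q) := by
    have e : n - b = (n - b % q) - q * (b / q) := by
      have := Int.emod_add_mul_ediv b q
      linarith
    rw [e]
    exact dvd_sub_left (dvd_mul_right _ _)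
  by_cases hp : ((q : ℤ) ∣ n - b ∧ (d : ℤ) ∣ n - a ∧ (d' : ℤ) ∣ n - a')
  · rw [if_pos hp, if_pos ⟨h.1 hp.1, hp.2⟩]
  · rw [if_neg hp, if_neg (fun h' => hp ⟨h.2 h'.1, h'.2⟩)]

/-- expansion of the sum -/
theorem expand (X Z : ℕ) (hX : 1 ≤ X) (a a' : ℤ) (c c' : ℕ → ℝ) (s : Finset (ℕ × ℤ))
    (φ : ℕ × ℤ → ℝ) (Φ : ℤ → ℝ)
    (hΦ : ∀ n : ℤ, Φ n = ∑ x ∈ s, φ x * (if (x.1 : ℤ) ∣ n - x.2 then 1 else 0)) :
    HasSum (fun n : ℤ => Wt X n * (Φ n * (ds c Z (n - a) * ds c' Z (n - a'))))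
      (∑ x ∈ s, φ x * ∑ d ∈ Icc 1 Z, ∑ d' ∈ Icc 1 Z, c d * c' d' * SEb X x.2 a a' x.1 d d') := by
  have h : HasSum (fun n : ℤ => ∑ x ∈ s, φ x * ∑ d ∈ Icc 1 Z, ∑ d' ∈ Icc 1 Z, c d * c' d' *
      (Wt X n * (II x.1 (n - x.2) * II d (n - a) * II d' (n - a'))))
      (∑ x ∈ s, φ x * ∑ d ∈ Icc 1 Z, ∑ d' ∈ Icc 1 Z, c d * c' d' * SEb X x.2 a a' x.1 d d') :=
    hasSum_sum fun x _ => HasSum.mul_left _ (hasSum_sum fun d _ => hasSum_sum fun d' _ =>
      HasSum.mul_left _ (hasSum_SEb X hX x.2 a a' x.1 d d'))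
  have e : (fun n : ℤ => Wt X n * (Φ n * (ds c Z (n - a) * ds c' Z (n - a')))) =
      (fun n : ℤ => ∑ x ∈ s, φ x * ∑ d ∈ Icc 1 Z, ∑ d' ∈ Icc 1 Z, c d * c' d' *
      (Wt X n * (II x.1 (n - x.2) * II d (n - a) * II d' (n - a')))) := by
    funext n
    rw [hΦ n]
    unfold ds
    rw [Finset.sum_mul, Finset.mul_sum]
    refine sum_congr rfl fun x _ => ?_
    rw [Finset.sum_mul_sum]
    have e1 : ∀ (w p i S : ℝ), w * (p * i * S) = p * (w * i * S) := fun w p i S => by ring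
    rw [e1]
    congr 1
    rw [Finset.mul_sum]
    refine sum_congr rfl fun d _ => ?_
    rw [Finset.mul_sum]
    refine sum_congr rfl fun d' _ => ?_
    unfold II
    ring
  rw [e]
  exact h

theorem SEb_nc {Cl : ℕ → Prop} {y : ℝ} {Z : ℕ} {c : ℕ → ℝ} (hc : RC Cl y Z c)
    {a a' : ℤ} (haa : ∀ p : ℕ, p.Prime → y < (p : ℝ) → (p : ℤ) ∣ a - a' → Cl p) (N : ℕ) (b : ℤ)
    (q d d' : ℕ) (hd : c d ≠ 0) (hn : ¬ Nat.Coprime d d') :
    SEb N b a a' q d d' = 0 := by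
  obtain ⟨p, hp, hpd, hpd'⟩ := Nat.Prime.not_coprime_iff_dvd.1 hn
  obtain ⟨h1, h2⟩ := (hc.supp d hd).2.2 p hp hpd
  unfold SEb
  refine (tsum_congr fun n => if_neg ?_).trans tsum_zero
  rintro ⟨_, h3, h4⟩
  apply h2
  apply haa p hp h1
  have h5 : (p : ℤ) ∣ n - a := (Int.natCast_dvd_natCast.2 hpd).trans h3
  have h6 : (p : ℤ) ∣ n - a' := (Int.natCast_dvd_natCast.2 hpd').trans h4
  have h7 : a - a' = (n - a') - (n - a) := by ring
  rw [h7]
  exact dvd_sub h6 h5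

theorem dbl (Z : ℕ) (X : ℝ) (hZX : (Z : ℝ) ≤ X) (G : ℕ → ℕ → ℝ) (B : ℝ) (hB : 0 ≤ B)
    (hG : ∀ d ∈ Icc 1 Z, ∀ d' ∈ (Icc 1 Z).filter (fun d' => Nat.Coprime d d'), |G d d'| ≤ B) :
    |∑ d ∈ Icc 1 Z, ∑ d' ∈ (Icc 1 Z).filter (fun d' => Nat.Coprime d d'), G d d'| ≤
      X ^ 2 * B := by
  have hcardI : ((Icc 1 Z).card : ℝ) ≤ X := by
    rw [Nat.card_Icc]
    simpa using hZX
  have hX0 : 0 ≤ X := le_trans (Nat.cast_nonneg _) hZX
  have hcardF : ∀ d : ℕ, (((Icc 1 Z).filter (fun d' => Nat.Coprime d d')).card : ℝ) ≤ X := by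
    intro d
    refine le_trans ?_ hcardI
    exact_mod_cast Finset.card_filter_le _ _
  calc |∑ d ∈ Icc 1 Z, ∑ d' ∈ (Icc 1 Z).filter (fun d' => Nat.Coprime d d'), G d d'|
      ≤ ∑ d ∈ Icc 1 Z, |∑ d' ∈ (Icc 1 Z).filter (fun d' => Nat.Coprime d d'), G d d'| :=
        Finset.abs_sum_le_sum_abs _ _
    _ ≤ ∑ d ∈ Icc 1 Z, X * B := by
        refine Finset.sum_le_sum fun d hd => ?_
        refine (Finset.abs_sum_le_sum_abs _ _).trans ?_
        refine (Finset.sum_le_sum fun d' hd' => hG d hd d' hd').trans ?_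
        rw [Finset.sum_const, nsmul_eq_mul]
        exact mul_le_mul_of_nonneg_right (hcardF d) hB
    _ ≤ X ^ 2 * B := by
        rw [Finset.sum_const, nsmul_eq_mul]
        have h0 : 0 ≤ X * B := mul_nonneg hX0 hB
        calc ((Icc 1 Z).card : ℝ) * (X * B) ≤ X * (X * B) :=
              mul_le_mul_of_nonneg_right hcardI h0
          _ = X ^ 2 * B := by ring

/-- the coprime pairs for one residue class -/
theorem perx (ε₀ ε₀' η' ε₁ C₁ : ℝ) (hε₀ : 0 < ε₀) (hε₀1 : ε₀ ≤ 1 / 100) (hε₀' : ε₀ ≤ ε₀')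
    (X : ℕ) (hX : 2 ≤ X)
    (hT : ∀ (q D0 Z : ℕ), 1 ≤ q → Odd q → Squarefree q → (q : ℝ) ≤ (X : ℝ) ^ ε₀' →
      (Z : ℝ) ≤ (X : ℝ) ^ (51 / 100 : ℝ) → 1 ≤ D0 → (Z : ℝ) ≤ (X : ℝ) ^ ε₀' * D0 →
      ∀ (b a a' : ℤ), |(b : ℝ)| ≤ q → |(a : ℝ)| ≤ X - (X : ℝ) ^ (1 / 2 : ℝ) →
      |(a' : ℝ)| ≤ X - (X : ℝ) ^ (1 / 2 : ℝ) → a ≠ a' →
      ∀ c c' : ℕ → ℝ, BX.CofO q c → BX.CofO q c' → BX.CofR ((X : ℝ) ^ ε₁) Z c →
      BX.CofR ((X : ℝ) ^ ε₁) Z c' →
      |∑ d ∈ Ioc D0 Z, ∑ d' ∈ (Ioc D0 Z).filter (fun d' => Nat.Coprime d d'), c d * c' d' *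
        ∑' n : ℤ, (if (q : ℤ) ∣ n - b then Wt X n else 0) * (BX.dl d (n - a) * BX.dl d' (n - a'))| ≤
        C₁ * (X : ℝ) ^ (1 - η'))
    (hP : ∀ m : ℕ, 1 ≤ m → (m : ℝ) ≤ (X : ℝ) ^ (1 - 3 * ε₀ / 20) → ∀ c : ℤ,
      |∑' n : ℤ, (if (m : ℤ) ∣ n - c then Wt X n else 0) - X / m| ≤ 1 / (X : ℝ) ^ 5)
    (h2 : (2 : ℝ) ≤ (X : ℝ) ^ ε₁) (h4 : (2 : ℝ) ≤ (X : ℝ) ^ (ε₀ / 4))
    (Z : ℕ) (hZ : (Z : ℝ) ≤ (X : ℝ) ^ (1 / 2 + ε₀ / 4)) (S Cl : ℕ → Prop) (y : ℝ)
    (hy : (X : ℝ) ^ ε₁ ≤ y) (hS : ∀ p, S p → (p : ℝ) ≤ y)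
    (q : ℕ) (b : ℤ) (hq1 : 1 ≤ q) (hqR : (q : ℝ) ≤ (X : ℝ) ^ (ε₀ / 10)) (hqo : Odd q)
    (hqs : Squarefree q) (hqS : ∀ p : ℕ, p.Prime → p ∣ q → S p) (hb : |(b : ℝ)| ≤ q)
    (a a' : ℤ) (ha : |(a : ℝ)| ≤ X - (X : ℝ) ^ (1 / 2 : ℝ))
    (ha' : |(a' : ℝ)| ≤ X - (X : ℝ) ^ (1 / 2 : ℝ)) (haa : a ≠ a')
    (c c' : ℕ → ℝ) (hc : RC Cl y Z c) (hc' : RC Cl y Z c') :
    |∑ d ∈ Icc 1 Z, ∑ d' ∈ (Icc 1 Z).filter (fun d' => Nat.Coprime d d'), c d * c' d' *
      (SEb X b a a' q d d' - X / (q * d * d'))| ≤ C₁ * (X : ℝ) ^ (1 - η') + 3 := by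
  have hX1 : (1 : ℝ) ≤ X := by exact_mod_cast (by omega : 1 ≤ X)
  have hX0 : (0 : ℝ) < X := by linarith
  have hXle : ∀ s t : ℝ, s ≤ t → (X : ℝ) ^ s ≤ (X : ℝ) ^ t := fun s t hst =>
    Real.rpow_le_rpow_of_exponent_le hX1 hst
  set t : ℝ := (X : ℝ) ^ (1 / 2 - ε₀ / 2) with ht
  have ht1 : 1 ≤ t := Real.one_le_rpow hX1 (by linarith)
  set D0 : ℕ := ⌊t⌋₊ with hD0
  have hD01 : 1 ≤ D0 := Nat.le_floor (by simpa using ht1)
  have hD0t : (D0 : ℝ) ≤ t := Nat.floor_le (by linarith)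
  have hD01' : (1 : ℝ) ≤ (D0 : ℝ) := by exact_mod_cast hD01
  have htD0 : t ≤ 2 * D0 := by
    have := Nat.lt_floor_add_one t
    linarith
  have hZ51 : (Z : ℝ) ≤ (X : ℝ) ^ (51 / 100 : ℝ) := hZ.trans (hXle _ _ (by linarith))
  have hZX : (Z : ℝ) ≤ X := hZ51.trans (by
    have := hXle (51 / 100) 1 (by norm_num)
    rwa [Real.rpow_one] at this)
  have hZD : (Z : ℝ) ≤ (X : ℝ) ^ ε₀' * D0 := by
    have hp : 0 < (X : ℝ) ^ (3 * ε₀ / 4) := Real.rpow_pos_of_pos hX0 _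
    calc (Z : ℝ) ≤ (X : ℝ) ^ (1 / 2 + ε₀ / 4) := hZ
      _ = t * (X : ℝ) ^ (3 * ε₀ / 4) := by
          rw [ht, ← Real.rpow_add hX0]; congr 1; ring
      _ ≤ (2 * D0) * (X : ℝ) ^ (3 * ε₀ / 4) := mul_le_mul_of_nonneg_right htD0 hp.le
      _ ≤ ((X : ℝ) ^ (ε₀ / 4) * D0) * (X : ℝ) ^ (3 * ε₀ / 4) :=
          mul_le_mul_of_nonneg_right (mul_le_mul_of_nonneg_right h4 (by positivity)) hp.le
      _ = ((X : ℝ) ^ (ε₀ / 4) * (X : ℝ) ^ (3 * ε₀ / 4)) * D0 := by ring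
      _ = (X : ℝ) ^ ε₀ * D0 := by
          rw [← Real.rpow_add hX0]; congr 2; ring
      _ ≤ (X : ℝ) ^ ε₀' * D0 := mul_le_mul_of_nonneg_right (hXle _ _ hε₀') (by positivity)
  have hcop : ∀ (cc : ℕ → ℝ), RC Cl y Z cc → ∀ d, cc d ≠ 0 → Nat.Coprime d (2 * q) := by
    intro cc hcc d hd
    refine Nat.Coprime.symm (Nat.coprime_of_dvd ?_)
    intro p hpp hp1 hp2
    have h1 := ((hcc.supp d hd).2.2 p hpp hp2).1
    rcases (Nat.Prime.dvd_mul hpp).1 hp1 with h3 | h3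
    · have h5 : p ≤ 2 := Nat.le_of_dvd (by norm_num) h3
      have h6 : (p : ℝ) ≤ 2 := by exact_mod_cast h5
      linarith
    · have := hS p (hqS p hpp h3)
      linarith
  have hO : ∀ (cc : ℕ → ℝ), RC Cl y Z cc → BX.CofO q (fun d => if D0 < d then cc d else 0) := by
    intro cc hcc
    refine ⟨fun d => ?_, fun d hd => ?_⟩
    · split_ifs
      · exact hcc.bd d
      · simp
    · refine hcop cc hcc d ?_
      intro h0
      apply hd
      rw [h0]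
      simp
  have hR : ∀ (cc : ℕ → ℝ), RC Cl y Z cc →
      BX.CofR ((X : ℝ) ^ ε₁) Z (fun d => if D0 < d then cc d else 0) := by
    intro cc hcc
    refine ⟨fun d => ?_, fun d hd => ?_⟩
    · split_ifs
      · exact hcc.bd d
      · simp
    · have hD : D0 < d := by
        by_contra h
        exact hd (if_neg h)
      have hd' : cc d ≠ 0 := by
        intro h0
        apply hd
        rw [h0]
        simp
      obtain ⟨h1, h3, h5⟩ := hcc.supp d hd'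
      exact ⟨h3, by omega, fun p hp hpd => lt_of_le_of_lt hy (h5 p hp hpd).1⟩
  have hqε : (q : ℝ) ≤ (X : ℝ) ^ ε₀' := hqR.trans (hXle _ _ (by linarith))
  have hmain := hT q D0 Z hq1 hqo hqs hqε hZ51 hD01 hZD b a a' hb ha ha' haa _ _ (hO c hc)
    (hO c' hc') (hR c hc) (hR c' hc')
  set T : ℕ → ℕ → ℝ := fun d d' => ∑' n : ℤ, (if (q : ℤ) ∣ n - b then Wt X n else 0) *
    (BX.dl d (n - a) * BX.dl d' (n - a')) with hTdef
  -- the sum over all pairs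
  have hconv : ∑ d ∈ Ioc D0 Z, ∑ d' ∈ (Ioc D0 Z).filter (fun d' => Nat.Coprime d d'),
      (if D0 < d then c d else 0) * (if D0 < d' then c' d' else 0) * T d d' =
      ∑ d ∈ Icc 1 Z, ∑ d' ∈ (Icc 1 Z).filter (fun d' => Nat.Coprime d d'),
      (if D0 < d then c d else 0) * (if D0 < d' then c' d' else 0) * T d d' := by
    have hsub : Ioc D0 Z ⊆ Icc 1 Z := by
      intro d hd
      rw [mem_Ioc] at hd
      rw [mem_Icc]
      omega
    have e1 : ∀ d ∈ Ioc D0 Z, ∑ d' ∈ (Ioc D0 Z).filter (fun d' => Nat.Coprime d d'),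
        (if D0 < d then c d else 0) * (if D0 < d' then c' d' else 0) * T d d' =
        ∑ d' ∈ (Icc 1 Z).filter (fun d' => Nat.Coprime d d'),
        (if D0 < d then c d else 0) * (if D0 < d' then c' d' else 0) * T d d' := by
      intro d _
      refine Finset.sum_subset (Finset.filter_subset_filter _ hsub) ?_
      intro d' hd' hnd'
      rw [mem_filter, mem_Icc] at hd'
      rw [mem_filter, mem_Ioc] at hnd'
      have h5 : ¬ D0 < d' := fun h => hnd' ⟨⟨h, hd'.1.2⟩, hd'.2⟩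
      rw [if_neg h5]
      ring
    rw [Finset.sum_congr rfl e1]
    refine Finset.sum_subset hsub ?_
    intro d hd hnd
    rw [mem_Icc] at hd
    rw [mem_Ioc] at hnd
    have h5 : ¬ D0 < d := fun h => hnd ⟨h, hd.2⟩
    refine Finset.sum_eq_zero fun d' _ => ?_
    rw [if_neg h5]
    ring
  have hmain' : |∑ d ∈ Icc 1 Z, ∑ d' ∈ (Icc 1 Z).filter (fun d' => Nat.Coprime d d'),
      (if D0 < d then c d else 0) * (if D0 < d' then c' d' else 0) * T d d'| ≤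
      C₁ * (X : ℝ) ^ (1 - η') := by
    rw [← hconv]
    exact hmain
  have hX5 : (0 : ℝ) < (X : ℝ) ^ 5 := by positivity
  have hM : ∀ d d' : ℕ, 1 ≤ d → 1 ≤ d' → Nat.Coprime q d → Nat.Coprime q d' →
      Nat.Coprime d d' → (q : ℝ) * d * d' ≤ (X : ℝ) ^ (1 - 3 * ε₀ / 20) →
      |SEb X b a a' q d d' - X / (q * d * d')| ≤ 1 / (X : ℝ) ^ 5 := by
    intro d d' hd hd' g1 g2 g3 hle
    obtain ⟨cc, hcc'⟩ := SEb_eq X b a a' q d d' g1 g2 g3
    have hm1 : 1 ≤ q * d * d' := Nat.succ_le_of_lt (by positivity)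
    have h4 := hP (q * d * d') hm1 (by push_cast; exact hle) cc
    rw [← hcc'] at h4
    push_cast at h4
    exact h4
  have hcc : ∀ d d' : ℕ, |c d * c' d'| ≤ 1 := by
    intro d d'
    rw [abs_mul]
    calc |c d| * |c' d'| ≤ 1 * 1 :=
          mul_le_mul (hc.bd d) (hc'.bd d') (abs_nonneg _) zero_le_one
      _ = 1 := one_mul 1
  have hqr : (0 : ℝ) < q := by exact_mod_cast hq1
  have hqd : ∀ d : ℕ, d ≤ Z → (q : ℝ) * d ≤ (X : ℝ) ^ (1 - 3 * ε₀ / 20) := by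
    intro d hd
    have hd' : (d : ℝ) ≤ (X : ℝ) ^ (51 / 100 : ℝ) := le_trans (by exact_mod_cast hd) hZ51
    calc (q : ℝ) * d ≤ (X : ℝ) ^ (ε₀ / 10) * (X : ℝ) ^ (51 / 100 : ℝ) :=
          mul_le_mul hqR hd' (Nat.cast_nonneg _) (by positivity)
      _ = (X : ℝ) ^ (ε₀ / 10 + 51 / 100) := by rw [← Real.rpow_add hX0]
      _ ≤ _ := hXle _ _ (by linarith)
  -- one pair
  have herr : ∀ d ∈ Icc 1 Z, ∀ d' ∈ (Icc 1 Z).filter (fun d' => Nat.Coprime d d'),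
      |c d * c' d' * (SEb X b a a' q d d' - X / (q * d * d')) -
        (if D0 < d then c d else 0) * (if D0 < d' then c' d' else 0) * T d d'| ≤
        3 / (X : ℝ) ^ 5 := by
    intro d hd d' hd'
    rw [mem_filter, mem_Icc] at hd'
    rw [mem_Icc] at hd
    by_cases hz : c d * c' d' = 0
    · have hz' : (if D0 < d then c d else 0) * (if D0 < d' then c' d' else 0) = 0 := by
        rcases mul_eq_zero.1 hz with h | h
        · rw [h]; simp
        · rw [h]; simp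
      rw [hz, hz', zero_mul, zero_mul, sub_zero, abs_zero]
      positivity
    · have hcd : c d ≠ 0 := left_ne_zero_of_mul hz
      have hcd' : c' d' ≠ 0 := right_ne_zero_of_mul hz
      have k1 : Nat.Coprime q d :=
        (Nat.Coprime.coprime_dvd_right (Dvd.intro_left 2 rfl) (hcop c hc d hcd)).symm
      have k2 : Nat.Coprime q d' :=
        (Nat.Coprime.coprime_dvd_right (Dvd.intro_left 2 rfl) (hcop c' hc' d' hcd')).symm
      have hdr : (1 : ℝ) ≤ d := by exact_mod_cast hd.1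
      have hdr' : (1 : ℝ) ≤ d' := by exact_mod_cast hd'.1.1
      have hd0 : (0 : ℝ) < d := by linarith
      have hd0' : (0 : ℝ) < d' := by linarith
      by_cases hL : D0 < d ∧ D0 < d'
      · rw [if_pos hL.1, if_pos hL.2, ← mul_sub, abs_mul]
        have hE : |SEb X b a a' q d d' - X / (q * d * d') - T d d'| ≤ 3 / (X : ℝ) ^ 5 := by
          rw [hTdef]
          dsimp only
          rw [open_prod X (by omega)]
          have s1 := hM d 1 hd.1 le_rfl k1 (Nat.coprime_one_right q) (Nat.coprime_one_right d)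
            (by rw [Nat.cast_one, mul_one]; exact hqd d hd.2)
          have s2 := hM 1 d' le_rfl hd'.1.1 (Nat.coprime_one_right q) k2
            (Nat.coprime_one_left d')
            (by rw [Nat.cast_one, mul_one]; exact hqd d' hd'.1.2)
          have s3 := hM 1 1 le_rfl le_rfl (Nat.coprime_one_right q) (Nat.coprime_one_right q)
            (Nat.coprime_one_right 1) (by
              rw [Nat.cast_one, mul_one, mul_one]
              have := hqd d hd.2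
              exact (le_mul_of_one_le_right hqr.le hdr).trans this)
          rw [Nat.cast_one, mul_one] at s1 s2
          rw [Nat.cast_one, mul_one, mul_one] at s3
          have e1 : SEb X b a a' q d d' - X / (q * d * d') -
              (SEb X b a a' q d d' - SEb X b a a' q d 1 / d' - SEb X b a a' q 1 d' / d +
              SEb X b a a' q 1 1 / (d * d')) =
              (SEb X b a a' q d 1 - X / (q * d)) / d' +
              (SEb X b a a' q 1 d' - X / (q * d')) / d -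
              (SEb X b a a' q 1 1 - X / q) / (d * d') := by
            field_simp
            ring
          rw [e1]
          have f1 : |(SEb X b a a' q d 1 - X / (q * d)) / d'| ≤ 1 / (X : ℝ) ^ 5 := by
            rw [abs_div, abs_of_pos hd0', div_le_iff₀ hd0']
            exact s1.trans (le_mul_of_one_le_right (by positivity) hdr')
          have f2 : |(SEb X b a a' q 1 d' - X / (q * d')) / d| ≤ 1 / (X : ℝ) ^ 5 := by
            rw [abs_div, abs_of_pos hd0, div_le_iff₀ hd0]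
            exact s2.trans (le_mul_of_one_le_right (by positivity) hdr)
          have f3 : |(SEb X b a a' q 1 1 - X / q) / (d * d')| ≤ 1 / (X : ℝ) ^ 5 := by
            rw [abs_div, abs_of_pos (by positivity : (0 : ℝ) < d * d'),
              div_le_iff₀ (by positivity)]
            exact s3.trans (le_mul_of_one_le_right (by positivity)
              (one_le_mul_of_one_le_of_one_le hdr hdr'))
          have f4 : (3 : ℝ) / (X : ℝ) ^ 5 = 1 / (X : ℝ) ^ 5 + 1 / (X : ℝ) ^ 5 +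
              1 / (X : ℝ) ^ 5 := by ring
          rw [f4]
          refine (abs_sub _ _).trans (add_le_add ?_ f3)
          exact (abs_add_le _ _).trans (add_le_add f1 f2)
        calc |c d * c' d'| * _ ≤ 1 * (3 / (X : ℝ) ^ 5) :=
              mul_le_mul (hcc d d') hE (abs_nonneg _) zero_le_one
          _ = 3 / (X : ℝ) ^ 5 := one_mul _
      · have hz' : (if D0 < d then c d else 0) * (if D0 < d' then c' d' else 0) = 0 := by
          by_cases g1 : D0 < d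
          · have g2 : ¬ D0 < d' := fun h => hL ⟨g1, h⟩
            rw [if_neg g2, mul_zero]
          · rw [if_neg g1, zero_mul]
        rw [hz', zero_mul, sub_zero, abs_mul]
        have hsm : (d : ℝ) * d' ≤ t * (X : ℝ) ^ (1 / 2 + ε₀ / 4) := by
          have ht0 : 0 ≤ t := by linarith
          have hdZ : (d : ℝ) ≤ (X : ℝ) ^ (1 / 2 + ε₀ / 4) := le_trans (by exact_mod_cast hd.2) hZ
          have hdZ' : (d' : ℝ) ≤ (X : ℝ) ^ (1 / 2 + ε₀ / 4) :=
            le_trans (by exact_mod_cast hd'.1.2) hZ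
          by_cases g1 : D0 < d
          · have g2 : d' ≤ D0 := not_lt.1 fun h => hL ⟨g1, h⟩
            have g3 : (d' : ℝ) ≤ t := le_trans (by exact_mod_cast g2) hD0t
            calc (d : ℝ) * d' ≤ (X : ℝ) ^ (1 / 2 + ε₀ / 4) * t :=
                  mul_le_mul hdZ g3 hd0'.le (by positivity)
              _ = _ := mul_comm _ _
          · have g2 : d ≤ D0 := not_lt.1 g1
            have g3 : (d : ℝ) ≤ t := le_trans (by exact_mod_cast g2) hD0t
            exact mul_le_mul g3 hdZ' hd0'.le ht0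
        have hqdd : (q : ℝ) * d * d' ≤ (X : ℝ) ^ (1 - 3 * ε₀ / 20) := by
          calc (q : ℝ) * d * d' = q * (d * d') := by ring
            _ ≤ (X : ℝ) ^ (ε₀ / 10) * (t * (X : ℝ) ^ (1 / 2 + ε₀ / 4)) :=
                mul_le_mul hqR hsm (by positivity) (by positivity)
            _ = (X : ℝ) ^ (1 - 3 * ε₀ / 20) := by
                rw [ht, ← Real.rpow_add hX0, ← Real.rpow_add hX0]
                congr 1
                ring
        have hE := hM d d' hd.1 hd'.1.1 k1 k2 hd'.2 hqdd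
        calc |c d * c' d'| * _ ≤ 1 * (1 / (X : ℝ) ^ 5) :=
              mul_le_mul (hcc d d') hE (abs_nonneg _) zero_le_one
          _ = 1 / (X : ℝ) ^ 5 := one_mul _
          _ ≤ 3 / (X : ℝ) ^ 5 := by
              apply div_le_div_of_nonneg_right _ hX5.le
              norm_num
  have hdiff := dbl Z X hZX (fun d d' => c d * c' d' * (SEb X b a a' q d d' - X / (q * d * d')) -
        (if D0 < d then c d else 0) * (if D0 < d' then c' d' else 0) * T d d') (3 / (X : ℝ) ^ 5)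
        (by positivity) herr
  have hsplit : ∑ d ∈ Icc 1 Z, ∑ d' ∈ (Icc 1 Z).filter (fun d' => Nat.Coprime d d'),
      (c d * c' d' * (SEb X b a a' q d d' - X / (q * d * d')) -
        (if D0 < d then c d else 0) * (if D0 < d' then c' d' else 0) * T d d') =
      (∑ d ∈ Icc 1 Z, ∑ d' ∈ (Icc 1 Z).filter (fun d' => Nat.Coprime d d'), c d * c' d' *
        (SEb X b a a' q d d' - X / (q * d * d'))) -
      ∑ d ∈ Icc 1 Z, ∑ d' ∈ (Icc 1 Z).filter (fun d' => Nat.Coprime d d'),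
        (if D0 < d then c d else 0) * (if D0 < d' then c' d' else 0) * T d d' := by
    rw [← Finset.sum_sub_distrib]
    refine Finset.sum_congr rfl fun d _ => ?_
    rw [← Finset.sum_sub_distrib]
  rw [hsplit] at hdiff
  have h3 : (X : ℝ) ^ 2 * (3 / (X : ℝ) ^ 5) ≤ 3 := by
    have : (X : ℝ) ^ 2 * (3 / (X : ℝ) ^ 5) = 3 / (X : ℝ) ^ 3 := by
      field_simp
    rw [this]
    exact div_le_self (by norm_num) (one_le_pow₀ hX1)
  have h5 := abs_sub_abs_le_abs_sub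
    (∑ d ∈ Icc 1 Z, ∑ d' ∈ (Icc 1 Z).filter (fun d' => Nat.Coprime d d'), c d * c' d' *
        (SEb X b a a' q d d' - X / (q * d * d')))
    (∑ d ∈ Icc 1 Z, ∑ d' ∈ (Icc 1 Z).filter (fun d' => Nat.Coprime d d'),
        (if D0 < d then c d else 0) * (if D0 < d' then c' d' else 0) * T d d')
  linarith

theorem sum_dom {s t : Finset ℕ} (F G : ℕ → ℝ) (hG : ∀ d ∈ t, 0 ≤ G d)
    (h : ∀ d ∈ s, F d ≠ 0 → d ∈ t ∧ F d ≤ G d) : ∑ d ∈ s, F d ≤ ∑ d ∈ t, G d := by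
  classical
  calc ∑ d ∈ s, F d = ∑ d ∈ s.filter (fun d => F d ≠ 0), F d := (Finset.sum_filter_ne_zero s).symm
    _ ≤ ∑ d ∈ s.filter (fun d => F d ≠ 0), G d :=
        sum_le_sum fun d hd => (h d (mem_filter.1 hd).1 (mem_filter.1 hd).2).2
    _ ≤ ∑ d ∈ t, G d :=
        sum_le_sum_of_subset_of_nonneg
          (fun d hd => (h d (mem_filter.1 hd).1 (mem_filter.1 hd).2).1) (fun d hd _ => hG d hd)

/-- the pairs with a common factor in the main term -/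
theorem ncsum (ε₁ C₃ : ℝ) (X Z : ℕ) (hZX : Z ≤ X) (Cl : ℕ → Prop) (y : ℝ)
    (hy : (X : ℝ) ^ ε₁ ≤ y)
    (hRB : ∑ d ∈ BX.roughs ((X : ℝ) ^ ε₁) X,
      ∑ d' ∈ (BX.roughs ((X : ℝ) ^ ε₁) X).filter (fun d' => ¬ Nat.Coprime d d'),
        1 / ((d : ℝ) * d') ≤ C₃ * (X : ℝ) ^ (-(ε₁ / 2)))
    (c c' : ℕ → ℝ) (hc : RC Cl y Z c) (hc' : RC Cl y Z c') :
    |∑ d ∈ Icc 1 Z, ∑ d' ∈ (Icc 1 Z).filter (fun d' => ¬ Nat.Coprime d d'),
      c d * c' d' / (d * d')| ≤ C₃ * (X : ℝ) ^ (-(ε₁ / 2)) := by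
  refine le_trans ?_ hRB
  have hcc : ∀ d d' : ℕ, |c d * c' d'| ≤ 1 := by
    intro d d'
    rw [abs_mul]
    calc |c d| * |c' d'| ≤ 1 * 1 :=
          mul_le_mul (hc.bd d) (hc'.bd d') (abs_nonneg _) zero_le_one
      _ = 1 := one_mul 1
  have hrough : ∀ (cc : ℕ → ℝ), RC Cl y Z cc → ∀ d, cc d ≠ 0 → d ≠ 1 →
      d ∈ BX.roughs ((X : ℝ) ^ ε₁) X := by
    classical
    intro cc hcc d hd hd1
    obtain ⟨h1, h3, h5⟩ := hcc.supp d hd
    unfold BX.roughs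
    exact mem_filter.2 ⟨mem_Icc.2 ⟨h1, h3.trans hZX⟩, by omega,
      fun p hp hpd => lt_of_le_of_lt hy (h5 p hp hpd).1⟩
  calc |∑ d ∈ Icc 1 Z, ∑ d' ∈ (Icc 1 Z).filter (fun d' => ¬ Nat.Coprime d d'),
      c d * c' d' / (d * d')|
      ≤ ∑ d ∈ Icc 1 Z, ∑ d' ∈ (Icc 1 Z).filter (fun d' => ¬ Nat.Coprime d d'),
        |c d * c' d' / (d * d')| :=
        (Finset.abs_sum_le_sum_abs _ _).trans
          (Finset.sum_le_sum fun d _ => Finset.abs_sum_le_sum_abs _ _)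
    _ ≤ _ := by
        refine sum_dom _ _ (fun d _ => Finset.sum_nonneg fun d' _ => by positivity) ?_
        intro d _ hne
        obtain ⟨d₁, hd₁, hne₁⟩ := Finset.exists_ne_zero_of_sum_ne_zero hne
        rw [mem_filter] at hd₁
        have hcd : c d ≠ 0 := by
          intro h0
          apply hne₁
          rw [h0]; simp
        have hd1 : d ≠ 1 := by
          intro h1
          apply hd₁.2
          rw [h1]
          exact Nat.coprime_one_left _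
        refine ⟨hrough c hc d hcd hd1, ?_⟩
        refine sum_dom _ _ (fun d' _ => by positivity) ?_
        intro d' hd' hne'
        rw [mem_filter] at hd'
        have hcd' : c' d' ≠ 0 := by
          intro h0
          apply hne'
          rw [h0]; simp
        have hd1' : d' ≠ 1 := by
          intro h1
          apply hd'.2
          rw [h1]
          exact Nat.coprime_one_right _
        refine ⟨?_, ?_⟩
        · rw [mem_filter]
          exact ⟨hrough c' hc' d' hcd' hd1', hd'.2⟩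
        · rw [abs_div]
          have h0 : (0 : ℝ) ≤ (d : ℝ) * d' := by positivity
          rw [abs_of_nonneg h0]
          exact div_le_div_of_nonneg_right (hcc d d') h0

/-- the trivial bound for small `X` -/
theorem triv (X Z : ℕ) (hX : 1 ≤ X) (hZX : (Z : ℝ) ≤ X) (Y m : ℝ) (hYX : Y ≤ X) (hm : |m| ≤ 1)
    (s : Finset (ℕ × ℤ)) (φ : ℕ × ℤ → ℝ) (Φ : ℤ → ℝ)
    (hΦ : ∀ n : ℤ, Φ n = ∑ x ∈ s, φ x * (if (x.1 : ℤ) ∣ n - x.2 then 1 else 0))
    (hY : ∑ x ∈ s, |φ x| ≤ Y) (a a' : ℤ) (c c' : ℕ → ℝ) (hc : ∀ d, |c d| ≤ 1)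
    (hc' : ∀ d, |c' d| ≤ 1) :
    |∑' n : ℤ, Wt X n * (Φ n * (ds c Z (n - a) * ds c' Z (n - a'))) -
      X * (m * ((∑ d ∈ Icc 1 Z, c d / d) * (∑ d ∈ Icc 1 Z, c' d / d)))| ≤
      (∑' n : ℤ, Wt X n) * (X : ℝ) ^ 3 + (X : ℝ) ^ 3 := by
  have hX1 : (1 : ℝ) ≤ X := by exact_mod_cast hX
  have hX0 : (0 : ℝ) < X := by linarith
  have hcard : ((Icc 1 Z).card : ℝ) ≤ X := by
    rw [Nat.card_Icc]
    simpa using hZX
  have hds : ∀ cc : ℕ → ℝ, (∀ d, |cc d| ≤ 1) → ∀ n : ℤ, |ds cc Z n| ≤ X := by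
    intro cc hcc n
    unfold ds
    refine (Finset.abs_sum_le_sum_abs _ _).trans ?_
    calc ∑ d ∈ Icc 1 Z, |cc d * (if (d : ℤ) ∣ n then 1 else 0)| ≤ ∑ d ∈ Icc 1 Z, (1 : ℝ) := by
          refine Finset.sum_le_sum fun d _ => ?_
          rw [abs_mul]
          calc |cc d| * |(if (d : ℤ) ∣ n then (1 : ℝ) else 0)| ≤ 1 * 1 := by
                refine mul_le_mul (hcc d) ?_ (abs_nonneg _) zero_le_one
                split_ifs <;> simp
            _ = 1 := one_mul 1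
      _ ≤ X := by rw [Finset.sum_const, nsmul_eq_mul, mul_one]; exact hcard
  have hsd : ∀ cc : ℕ → ℝ, (∀ d, |cc d| ≤ 1) → |∑ d ∈ Icc 1 Z, cc d / d| ≤ X := by
    intro cc hcc
    refine (Finset.abs_sum_le_sum_abs _ _).trans ?_
    calc ∑ d ∈ Icc 1 Z, |cc d / d| ≤ ∑ d ∈ Icc 1 Z, (1 : ℝ) := by
          refine Finset.sum_le_sum fun d hd => ?_
          have hd1 : (1 : ℝ) ≤ d := by exact_mod_cast (mem_Icc.1 hd).1
          rw [abs_div, abs_of_nonneg (by linarith : (0 : ℝ) ≤ d), div_le_one (by linarith)]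
          exact (hcc d).trans hd1
      _ ≤ X := by rw [Finset.sum_const, nsmul_eq_mul, mul_one]; exact hcard
  have hΦb : ∀ n, |Φ n| ≤ X := by
    intro n
    rw [hΦ n]
    refine (Finset.abs_sum_le_sum_abs _ _).trans ?_
    refine le_trans ?_ (hY.trans hYX)
    refine Finset.sum_le_sum fun x _ => ?_
    rw [abs_mul]
    calc |φ x| * |(if (x.1 : ℤ) ∣ n - x.2 then (1 : ℝ) else 0)| ≤ |φ x| * 1 := by
          refine mul_le_mul_of_nonneg_left ?_ (abs_nonneg _)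
          split_ifs <;> simp
      _ = |φ x| := mul_one _
  have h1 : |∑' n : ℤ, Wt X n * (Φ n * (ds c Z (n - a) * ds c' Z (n - a')))| ≤
      (∑' n : ℤ, Wt X n) * (X : ℝ) ^ 3 := by
    have hs := (TaskS.summable_Wt X hX).hasSum.mul_right ((X : ℝ) ^ 3)
    rw [← Real.norm_eq_abs]
    refine tsum_of_norm_bounded hs fun n => ?_
    rw [Real.norm_eq_abs, abs_mul, abs_of_pos (Wt_pos X n), abs_mul, abs_mul]
    refine mul_le_mul_of_nonneg_left ?_ (Wt_pos X n).le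
    calc |Φ n| * (|ds c Z (n - a)| * |ds c' Z (n - a')|) ≤ X * (X * X) := by
          refine mul_le_mul (hΦb n) (mul_le_mul (hds c hc _) (hds c' hc' _) (abs_nonneg _)
            hX0.le) (by positivity) hX0.le
      _ = (X : ℝ) ^ 3 := by ring
  have h2 : |(X : ℝ) * (m * ((∑ d ∈ Icc 1 Z, c d / d) * (∑ d ∈ Icc 1 Z, c' d / d)))| ≤
      (X : ℝ) ^ 3 := by
    rw [abs_mul, abs_mul, abs_mul, abs_of_pos hX0]
    calc (X : ℝ) * (|m| * (|∑ d ∈ Icc 1 Z, c d / d| * |∑ d ∈ Icc 1 Z, c' d / d|)) ≤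
        X * (1 * (X * X)) := by
          refine mul_le_mul_of_nonneg_left ?_ hX0.le
          refine mul_le_mul hm (mul_le_mul (hsd c hc) (hsd c' hc') (abs_nonneg _) hX0.le)
            (by positivity) zero_le_one
      _ = (X : ℝ) ^ 3 := by ring
  exact (abs_sub _ _).trans (add_le_add h1 h2)

/-- **R2** -/
theorem main (hTTC : Pool.Agent.W23.PL.St_TTC) : St_R2 := by
  obtain ⟨ε₀', η', hε₀', hη', hT⟩ := hTTC (51 / 100) (1 / 100) (by norm_num) (by norm_num)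
    (by norm_num)
  obtain ⟨ε₀, hε₀, hε₀1, hε₀2⟩ : ∃ ε₀ : ℝ, 0 < ε₀ ∧ ε₀ ≤ 1 / 100 ∧ ε₀ ≤ ε₀' :=
    ⟨min ε₀' (1 / 100), lt_min hε₀' (by norm_num), min_le_right _ _, min_le_left _ _⟩
  obtain ⟨η, hη, hη1, hη2⟩ : ∃ η : ℝ, 0 < η ∧ η ≤ 1 / 100 ∧ η ≤ η' / 2 :=
    ⟨min (η' / 2) (1 / 100), lt_min (by positivity) (by norm_num), min_le_right _ _,
      min_le_left _ _⟩
  refine ⟨ε₀, η, hε₀, hε₀1, hη, hη1, ?_⟩
  intro ε₁ hε₁ hε₁1
  obtain ⟨C₁, hC₁, hT1⟩ := hT ε₁ hε₁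
  obtain ⟨C₃, hC₃, hRB⟩ := BX.RB ε₁ hε₁
  obtain ⟨N₁, hN₁⟩ := pois0
  obtain ⟨N₂, hN₂⟩ : ∃ N₂ : ℕ, ∀ N : ℕ, N₂ ≤ N → Real.log N ≤ (N : ℝ) ^ (3 * ε₀ / 20) := by
    have h1 := (isLittleO_log_rpow_atTop (by positivity : 0 < 3 * ε₀ / 20)).bound (one_pos)
    have h2 := (tendsto_natCast_atTop_atTop (R := ℝ)).eventually h1
    have h3 := h2.and (Filter.eventually_ge_atTop 1)
    obtain ⟨N₂, hN₂⟩ := Filter.eventually_atTop.mp h3
    refine ⟨N₂, fun N hN => ?_⟩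
    obtain ⟨h4, h5⟩ := hN₂ N hN
    rw [one_mul, Real.norm_eq_abs, Real.norm_eq_abs, abs_of_nonneg (Real.log_natCast_nonneg N),
      abs_of_nonneg (by positivity)] at h4
    exact h4
  have hbig : ∀ κ : ℝ, 0 < κ → ∃ N₃ : ℕ, ∀ N : ℕ, N₃ ≤ N → (2 : ℝ) ≤ (N : ℝ) ^ κ := by
    intro κ hκ
    have h := ((tendsto_rpow_atTop hκ).comp tendsto_natCast_atTop_atTop).eventually
      (Filter.eventually_ge_atTop (2 : ℝ))
    obtain ⟨N₃, h3⟩ := Filter.eventually_atTop.1 h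
    exact ⟨N₃, fun N hN => h3 N hN⟩
  obtain ⟨N₃, hN₃⟩ := hbig ε₁ hε₁
  obtain ⟨N₄, hN₄⟩ := hbig (ε₀ / 4) (by positivity)
  obtain ⟨η₁, hη₁, g1, g2, g3⟩ : ∃ η₁ : ℝ, 0 < η₁ ∧ η₁ ≤ η' / 4 ∧ η₁ ≤ ε₁ / 4 ∧ η₁ ≤ 1 / 2 :=
    ⟨min (η' / 4) (min (ε₁ / 4) (1 / 2)), lt_min (by positivity) (lt_min (by positivity)
      (by norm_num)), min_le_left _ _, (min_le_right _ _).trans (min_le_left _ _),
      (min_le_right _ _).trans (min_le_right _ _)⟩
  set N₀ : ℕ := max (max N₁ N₂) (max N₃ N₄) with hN₀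
  set Cs : ℝ := ∑ N ∈ range N₀, ((∑' n : ℤ, Wt N n) * (N : ℝ) ^ 3 + (N : ℝ) ^ 3) with hCs
  have hWn : ∀ N : ℕ, 0 ≤ (∑' n : ℤ, Wt N n) * (N : ℝ) ^ 3 + (N : ℝ) ^ 3 := fun N =>
    add_nonneg (mul_nonneg (tsum_nonneg fun n => (Wt_pos N n).le) (by positivity))
      (by positivity)
  have hCs0 : 0 ≤ Cs := Finset.sum_nonneg fun N _ => hWn N
  refine ⟨η₁, C₁ + 3 + C₃ + Cs, hη₁, by positivity, ?_⟩
  intro X Z hX hZ S Cl Y R y Φ m hy hS hEx hR hYη hm a a' ha ha' haa hCl c c' hc hc'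
  obtain ⟨s, φ, hΦ, hY, hs, hmv⟩ := hEx
  have hX1 : (1 : ℝ) ≤ X := by exact_mod_cast (by omega : 1 ≤ X)
  have hX0 : (0 : ℝ) < X := by linarith
  have hXle : ∀ s t : ℝ, s ≤ t → (X : ℝ) ^ s ≤ (X : ℝ) ^ t := fun s t hst =>
    Real.rpow_le_rpow_of_exponent_le hX1 hst
  have hZX : (Z : ℝ) ≤ X := hZ.trans (by
    have := hXle (1 / 2 + ε₀ / 4) 1 (by linarith)
    rwa [Real.rpow_one] at this)
  have hYX : Y ≤ X := hYη.trans (by
    have := hXle η 1 (by linarith)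
    rwa [Real.rpow_one] at this)
  have hpow1 : (1 : ℝ) ≤ (X : ℝ) ^ (1 - η₁) := Real.one_le_rpow hX1 (by linarith)
  rcases lt_or_ge X N₀ with hlt | hge
  · have h1 := triv X Z (by omega) hZX Y m hYX hm s φ Φ hΦ hY a a' c c' hc.bd hc'.bd
    have h2 := Finset.single_le_sum
      (f := fun N : ℕ => (∑' n : ℤ, Wt N n) * (N : ℝ) ^ 3 + (N : ℝ) ^ 3)
      (fun N _ => hWn N) (Finset.mem_range.2 hlt)
    calc _ ≤ _ := h1
      _ ≤ Cs := h2
      _ ≤ (C₁ + 3 + C₃ + Cs) * 1 := by linarith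
      _ ≤ (C₁ + 3 + C₃ + Cs) * (X : ℝ) ^ (1 - η₁) :=
          mul_le_mul_of_nonneg_left hpow1 (by positivity)
  · have hge1 : N₁ ≤ X := (le_max_left _ _).trans ((le_max_left _ _).trans hge)
    have hge2 : N₂ ≤ X := (le_max_right _ _).trans ((le_max_left _ _).trans hge)
    have hge3 : N₃ ≤ X := (le_max_left _ _).trans ((le_max_right _ _).trans hge)
    have hge4 : N₄ ≤ X := (le_max_right _ _).trans ((le_max_right _ _).trans hge)
    have hP : ∀ m : ℕ, 1 ≤ m → (m : ℝ) ≤ (X : ℝ) ^ (1 - 3 * ε₀ / 20) → ∀ c : ℤ,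
        |∑' n : ℤ, (if (m : ℤ) ∣ n - c then Wt X n else 0) - X / m| ≤ 1 / (X : ℝ) ^ 5 := by
      intro m hm1 hmX c
      refine hN₁ X hge1 m hm1 ?_ ?_ c
      · refine hmX.trans ?_
        rw [← Real.rpow_natCast (X : ℝ) 3]
        apply hXle
        push_cast
        linarith
      · calc (m : ℝ) * Real.log X ≤ (X : ℝ) ^ (1 - 3 * ε₀ / 20) * (X : ℝ) ^ (3 * ε₀ / 20) :=
              mul_le_mul hmX (hN₂ X hge2) (Real.log_natCast_nonneg X) (by positivity)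
          _ = X := by
              rw [← Real.rpow_add hX0, show 1 - 3 * ε₀ / 20 + 3 * ε₀ / 20 = 1 by ring,
                Real.rpow_one]
    -- every residue class
    have hE : ∀ x ∈ s, |∑ d ∈ Icc 1 Z, ∑ d' ∈ (Icc 1 Z).filter (fun d' => Nat.Coprime d d'),
        c d * c' d' * (SEb X x.2 a a' x.1 d d' - X / (x.1 * d * d'))| ≤
        C₁ * (X : ℝ) ^ (1 - η') + 3 := by
      intro x hx
      obtain ⟨q1, q2, q3, q4, q5⟩ := hs x hx
      have hq0 : (0 : ℤ) < (x.1 : ℤ) := by exact_mod_cast q1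
      have hb : |((x.2 % (x.1 : ℤ) : ℤ) : ℝ)| ≤ x.1 := by
        have b1 := Int.emod_nonneg x.2 hq0.ne'
        have b2 := Int.emod_lt_of_pos x.2 hq0
        rw [abs_of_nonneg (by exact_mod_cast b1)]
        have b3 : ((x.2 % (x.1 : ℤ) : ℤ) : ℝ) < ((x.1 : ℤ) : ℝ) := by exact_mod_cast b2
        have b4 : ((x.1 : ℤ) : ℝ) = (x.1 : ℝ) := by simp
        linarith
      have h := perx ε₀ ε₀' η' ε₁ C₁ hε₀ hε₀1 hε₀2 X hX
        (fun q D0 Z k1 k2 k3 k4 k5 k6 k7 b a a' k8 k9 k10 k11 c c' k12 k13 k14 k15 =>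
          hT1 X q D0 Z hX k1 k2 k3 k4 k5 k6 k7 b a a' k8 k9 k10 k11 c c' k12 k13 k14 k15
            (Or.inl le_rfl)) hP (hN₃ X hge3) (hN₄ X hge4) Z hZ S Cl y hy hS x.1
        (x.2 % (x.1 : ℤ)) q1 (q2.trans hR) q3 q4 q5 hb a a' ha ha' haa c c' hc hc'
      have e : ∑ d ∈ Icc 1 Z, ∑ d' ∈ (Icc 1 Z).filter (fun d' => Nat.Coprime d d'),
          c d * c' d' * (SEb X x.2 a a' x.1 d d' - X / (x.1 * d * d')) =
          ∑ d ∈ Icc 1 Z, ∑ d' ∈ (Icc 1 Z).filter (fun d' => Nat.Coprime d d'),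
          c d * c' d' * (SEb X (x.2 % (x.1 : ℤ)) a a' x.1 d d' - X / (x.1 * d * d')) :=
        Finset.sum_congr rfl fun d _ => Finset.sum_congr rfl fun d' _ => by
          rw [SEb_shift X x.2 a a' x.1 d d']
      rw [e]
      exact h
    have hnc := ncsum ε₁ C₃ X Z (by exact_mod_cast hZX) Cl y hy (hRB X hX) c c' hc hc'
    set K : ℝ := ∑ d ∈ Icc 1 Z, ∑ d' ∈ (Icc 1 Z).filter (fun d' => Nat.Coprime d d'),
      c d * c' d' / (d * d') with hK
    set K' : ℝ := ∑ d ∈ Icc 1 Z, ∑ d' ∈ (Icc 1 Z).filter (fun d' => ¬ Nat.Coprime d d'),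
      c d * c' d' / (d * d') with hK'
    have hKK : (∑ d ∈ Icc 1 Z, c d / d) * (∑ d ∈ Icc 1 Z, c' d / d) = K + K' := by
      rw [hK, hK', ← Finset.sum_add_distrib, Finset.sum_mul_sum]
      refine Finset.sum_congr rfl fun d _ => ?_
      rw [Finset.sum_filter_add_sum_filter_not]
      refine Finset.sum_congr rfl fun d' _ => ?_
      rw [div_mul_div_comm]
    set E : ℕ × ℤ → ℝ := fun x => ∑ d ∈ Icc 1 Z,
      ∑ d' ∈ (Icc 1 Z).filter (fun d' => Nat.Coprime d d'),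
        c d * c' d' * (SEb X x.2 a a' x.1 d d' - X / (x.1 * d * d')) with hEdef
    have hone : ∀ x ∈ s, φ x * ∑ d ∈ Icc 1 Z, ∑ d' ∈ Icc 1 Z,
        c d * c' d' * SEb X x.2 a a' x.1 d d' = φ x * E x + X * (φ x / x.1) * K := by
      intro x hx
      have hxq : (0 : ℝ) < x.1 := by exact_mod_cast (hs x hx).1
      have e1 : ∑ d ∈ Icc 1 Z, ∑ d' ∈ Icc 1 Z, c d * c' d' * SEb X x.2 a a' x.1 d d' =
          E x + X / x.1 * K := by
        rw [hEdef, hK, Finset.mul_sum]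
        dsimp only
        rw [← Finset.sum_add_distrib]
        refine Finset.sum_congr rfl fun d hd => ?_
        rw [Finset.mul_sum, ← Finset.sum_add_distrib,
          ← Finset.sum_filter_add_sum_filter_not (Icc 1 Z) (fun d' => Nat.Coprime d d')]
        have e2 : ∑ d' ∈ (Icc 1 Z).filter (fun d' => ¬ Nat.Coprime d d'),
            c d * c' d' * SEb X x.2 a a' x.1 d d' = 0 := by
          refine Finset.sum_eq_zero fun d' hd' => ?_
          by_cases h0 : c d = 0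
          · rw [h0]; ring
          · rw [SEb_nc hc hCl X x.2 x.1 d d' h0 (mem_filter.1 hd').2, mul_zero]
        rw [e2, add_zero]
        refine Finset.sum_congr rfl fun d' hd' => ?_
        have hd0 : (0 : ℝ) < d := by exact_mod_cast (mem_Icc.1 hd).1
        have hd0' : (0 : ℝ) < d' := by exact_mod_cast (mem_Icc.1 (mem_filter.1 hd').1).1
        field_simp
        ring
      rw [e1]
      field_simp
    have hexp := (expand X Z (by omega) a a' c c' s φ Φ hΦ).tsum_eq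
    have hmain : ∑' n : ℤ, Wt X n * (Φ n * (ds c Z (n - a) * ds c' Z (n - a'))) -
        X * (m * ((∑ d ∈ Icc 1 Z, c d / d) * (∑ d ∈ Icc 1 Z, c' d / d))) =
        ∑ x ∈ s, φ x * E x - X * m * K' := by
      rw [hexp, Finset.sum_congr rfl hone, Finset.sum_add_distrib, hKK, hmv,
        ← Finset.sum_mul, ← Finset.mul_sum]
      ring
    rw [hmain]
    have hB0 : 0 ≤ C₁ * (X : ℝ) ^ (1 - η') + 3 := by positivity
    have t1 : |∑ x ∈ s, φ x * E x| ≤ Y * (C₁ * (X : ℝ) ^ (1 - η') + 3) := by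
      refine (Finset.abs_sum_le_sum_abs _ _).trans ?_
      calc ∑ x ∈ s, |φ x * E x| ≤ ∑ x ∈ s, |φ x| * (C₁ * (X : ℝ) ^ (1 - η') + 3) := by
            refine Finset.sum_le_sum fun x hx => ?_
            rw [abs_mul]
            exact mul_le_mul_of_nonneg_left (hE x hx) (abs_nonneg _)
        _ = (∑ x ∈ s, |φ x|) * (C₁ * (X : ℝ) ^ (1 - η') + 3) := by rw [Finset.sum_mul]
        _ ≤ Y * (C₁ * (X : ℝ) ^ (1 - η') + 3) := mul_le_mul_of_nonneg_right hY hB0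
    have t2 : |X * m * K'| ≤ X * (C₃ * (X : ℝ) ^ (-(ε₁ / 2))) := by
      rw [abs_mul, abs_mul, abs_of_pos hX0]
      calc X * |m| * |K'| ≤ X * 1 * (C₃ * (X : ℝ) ^ (-(ε₁ / 2))) :=
            mul_le_mul (mul_le_mul_of_nonneg_left hm hX0.le) hnc (abs_nonneg _) (by positivity)
        _ = _ := by ring
    have t3 : Y * (C₁ * (X : ℝ) ^ (1 - η') + 3) ≤ (C₁ + 3) * (X : ℝ) ^ (1 - η₁) := by
      have u1 : (X : ℝ) ^ η * (X : ℝ) ^ (1 - η') ≤ (X : ℝ) ^ (1 - η₁) := by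
        rw [← Real.rpow_add hX0]
        exact hXle _ _ (by linarith)
      have u2 : (X : ℝ) ^ η ≤ (X : ℝ) ^ (1 - η₁) := hXle _ _ (by linarith)
      calc Y * (C₁ * (X : ℝ) ^ (1 - η') + 3) ≤ (X : ℝ) ^ η * (C₁ * (X : ℝ) ^ (1 - η') + 3) :=
            mul_le_mul_of_nonneg_right hYη hB0
        _ = C₁ * ((X : ℝ) ^ η * (X : ℝ) ^ (1 - η')) + 3 * (X : ℝ) ^ η := by ring
        _ ≤ C₁ * (X : ℝ) ^ (1 - η₁) + 3 * (X : ℝ) ^ (1 - η₁) :=
            add_le_add (mul_le_mul_of_nonneg_left u1 hC₁.le)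
              (mul_le_mul_of_nonneg_left u2 (by norm_num))
        _ = _ := by ring
    have t4 : X * (C₃ * (X : ℝ) ^ (-(ε₁ / 2))) ≤ C₃ * (X : ℝ) ^ (1 - η₁) := by
      have u1 : (X : ℝ) * (X : ℝ) ^ (-(ε₁ / 2)) ≤ (X : ℝ) ^ (1 - η₁) := by
        nth_rewrite 1 [← Real.rpow_one (X : ℝ)]
        rw [← Real.rpow_add hX0]
        exact hXle _ _ (by linarith)
      calc X * (C₃ * (X : ℝ) ^ (-(ε₁ / 2))) = C₃ * (X * (X : ℝ) ^ (-(ε₁ / 2))) := by ring
        _ ≤ _ := mul_le_mul_of_nonneg_left u1 hC₃.le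
    have t5 : 0 ≤ Cs * (X : ℝ) ^ (1 - η₁) := by positivity
    calc |∑ x ∈ s, φ x * E x - X * m * K'| ≤ |∑ x ∈ s, φ x * E x| + |X * m * K'| := abs_sub _ _
      _ ≤ (C₁ + 3) * (X : ℝ) ^ (1 - η₁) + C₃ * (X : ℝ) ^ (1 - η₁) :=
          add_le_add (t1.trans t3) (t2.trans t4)
      _ ≤ (C₁ + 3 + C₃ + Cs) * (X : ℝ) ^ (1 - η₁) := by linarith

end Pool.Agent.W935.UB.R2
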